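import Mathlib

set_option autoImplicit false

/-!
# FF28/Char: extension of a sign character to a phase with values in `ZMod (2 q)`
-/

namespace Pool.Agent.FF28

/-- the map `ZMod n → ℚ/ℤ`, `1 ↦ 1/n` -/
noncomputable def jot (n : ℕ) (hn : n ≠ 0) : ZMod n →+ AddCircle (1 : ℚ) :=
  ZMod.lift n ⟨(zmultiplesHom (AddCircle (1 : ℚ))) (((1 / n : ℚ)) : AddCircle (1 : ℚ)), by
    have h0 : (n : ℚ) ≠ 0 := by exact_mod_cast hn
    rw [zmultiplesHom_apply, ← QuotientAddGroup.mk_zsmul]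
    rw [show ((n : ℤ) • (1 / n : ℚ)) = 1 by simp [h0]]
    exact AddCircle.coe_period 1⟩

theorem jot_int (n : ℕ) (hn : n ≠ 0) (m : ℤ) :
    jot n hn (m : ZMod n) = (((m : ℚ) / n : ℚ) : AddCircle (1 : ℚ)) := by
  unfold jot
  rw [ZMod.lift_coe]
  rw [zmultiplesHom_apply, ← QuotientAddGroup.mk_zsmul]
  congr 1
  simp [div_eq_mul_inv]

theorem jot_inj (n : ℕ) (hn : n ≠ 0) : Function.Injective (jot n hn) := by
  rw [injective_iff_map_eq_zero]
  intro a ha
  obtain ⟨m, rfl⟩ := ZMod.intCast_surjective a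
  rw [jot_int] at ha
  rw [AddCircle.coe_eq_zero_iff] at ha
  obtain ⟨k, hk⟩ := ha
  have h0 : (n : ℚ) ≠ 0 := by exact_mod_cast hn
  rw [ZMod.intCast_zmod_eq_zero_iff_dvd]
  refine ⟨k, ?_⟩
  have h2 : (k : ℚ) = m / n := by simpa using hk
  rw [eq_div_iff h0] at h2
  have h3 : ((k * n : ℤ) : ℚ) = (m : ℤ) := by push_cast; exact h2
  have h4 := Int.cast_injective h3
  rw [← h4]; ring

/-- every element killed by `n` is hit -/
theorem jot_surj (n : ℕ) (hn : n ≠ 0) (y : AddCircle (1 : ℚ)) (hy : n • y = 0) :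
    ∃ x : ZMod n, jot n hn x = y := by
  obtain ⟨r, rfl⟩ := QuotientAddGroup.mk_surjective y
  rw [← QuotientAddGroup.mk_nsmul] at hy
  have h1 := (AddCircle.coe_eq_zero_iff (p := (1 : ℚ))).1 hy
  obtain ⟨k, hk⟩ := h1
  have h0 : (n : ℚ) ≠ 0 := by exact_mod_cast hn
  refine ⟨(k : ZMod n), ?_⟩
  rw [jot_int]
  congr 1
  rw [div_eq_iff h0]
  have : (k : ℚ) = n * r := by simpa using hk
  rw [this]; ring

/-- every element of `ℚ/ℤ` is torsion -/
theorem tors (y : AddCircle (1 : ℚ)) : ∃ n : ℕ, n ≠ 0 ∧ n • y = 0 := by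
  obtain ⟨r, rfl⟩ := QuotientAddGroup.mk_surjective y
  refine ⟨r.den, r.den_nz, ?_⟩
  rw [← QuotientAddGroup.mk_nsmul]
  refine (AddCircle.coe_eq_zero_iff (p := (1 : ℚ))).2 ⟨r.num, ?_⟩
  rw [nsmul_eq_mul, zsmul_eq_mul, mul_one, mul_comm]
  exact (Rat.mul_den_eq_num r).symm

/-- the character -/
theorem exists_char {ι A : Type*} [AddCommGroup A] (W : ι → A) (I : Set ι) (s : ι → ZMod 2)
    (h : ∀ p ∈ AddSubgroup.closure ((fun i => (W i, s i)) '' I), p.1 = 0 → p.2 = 0) :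
    ∃ φ : A →+ AddCircle (1 : ℚ), ∀ i ∈ I, φ (W i) = jot 2 two_ne_zero (s i) := by
  set G : AddSubgroup (A × ZMod 2) := AddSubgroup.closure ((fun i => (W i, s i)) '' I) with hG
  let f : G →+ A := (AddMonoidHom.fst A (ZMod 2)).comp G.subtype
  have hf : Function.Injective f := by
    rw [injective_iff_map_eq_zero]
    rintro ⟨⟨a, b⟩, hp⟩ h0
    have h1 : a = 0 := h0
    have h2 := h _ hp h1
    subst h1
    simp only at h2
    subst h2
    rfl
  let ψ : G →+ AddCircle (1 : ℚ) :=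
    ((jot 2 two_ne_zero).comp (AddMonoidHom.snd A (ZMod 2))).comp G.subtype
  obtain ⟨φ, hφ⟩ := (Module.Baer.of_divisible (AddCircle (1 : ℚ))).extension_property_addMonoidHom f hf ψ
  refine ⟨φ, fun i hi => ?_⟩
  have hm : ((W i, s i) : A × ZMod 2) ∈ G := AddSubgroup.subset_closure ⟨i, hi, rfl⟩
  have := DFunLike.congr_fun hφ ⟨_, hm⟩
  exact this

/-- THE PHASES -/
theorem exists_phase {K ι A : Type*} [Finite K] [Finite ι] [AddCommGroup A] (W : K → ι → A)
    (I : K → Set ι) (s : K → ι → ZMod 2)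
    (h : ∀ k, ∀ p ∈ AddSubgroup.closure ((fun i => (W k i, s k i)) '' I k), p.1 = 0 → p.2 = 0) :
    ∃ q : ℕ, 0 < q ∧ ∃ x : K → ι → ZMod (2 * q),
      (∀ k, ∀ i ∈ I k, x k i = if s k i = 0 then 0 else (q : ZMod (2 * q))) ∧
      ∀ k (m : ι →₀ ℤ), m.sum (fun i c => c • W k i) = 0 → m.sum (fun i c => c • x k i) = 0 := by
  classical
  choose φ hφ using fun k => exists_char (W k) (I k) (s k) (h k)
  have := Fintype.ofFinite K
  have := Fintype.ofFinite ι
  choose n hn0 hn using fun y : AddCircle (1 : ℚ) => tors y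
  let q : ℕ := ∏ k : K, ∏ i : ι, n (φ k (W k i))
  have hq : 0 < q := Finset.prod_pos fun k _ => Finset.prod_pos fun i _ => Nat.pos_of_ne_zero (hn0 _)
  have hq2 : 2 * q ≠ 0 := by omega
  have hkill : ∀ k i, (2 * q) • φ k (W k i) = 0 := by
    intro k i
    have hd1 : n (φ k (W k i)) ∣ ∏ i : ι, n (φ k (W k i)) :=
      Finset.dvd_prod_of_mem (fun i => n (φ k (W k i))) (Finset.mem_univ i)
    have hd2 : (∏ i : ι, n (φ k (W k i))) ∣ q :=
      Finset.dvd_prod_of_mem (fun k => ∏ i : ι, n (φ k (W k i))) (Finset.mem_univ k)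
    have hd : n (φ k (W k i)) ∣ 2 * q := (hd1.trans hd2).trans (Dvd.intro_left 2 rfl)
    obtain ⟨c, hc⟩ := hd
    rw [hc, mul_comm, mul_nsmul', hn, nsmul_zero]
  choose x hx using fun k i => jot_surj (2 * q) hq2 (φ k (W k i)) (hkill k i)
  refine ⟨q, hq, x, ?_, ?_⟩
  · intro k i hi
    apply jot_inj (2 * q) hq2
    rw [hx, hφ k i hi]
    have hs : s k i = 0 ∨ s k i = 1 := by
      generalize s k i = t
      revert t; decide
    rcases hs with hs | hs
    · simp [hs]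
    · rw [hs, if_neg (by decide)]
      have e1 := jot_int 2 two_ne_zero 1
      have e2 := jot_int (2 * q) hq2 q
      push_cast at e1 e2
      rw [e1, e2]
      congr 1
      have h0 : (q : ℚ) ≠ 0 := by exact_mod_cast hq.ne'
      field_simp
  · intro k m hm
    apply jot_inj (2 * q) hq2
    rw [map_zero, map_finsuppSum]
    simp only [map_zsmul, hx]
    have := congrArg (φ k) hm
    rw [map_zero, map_finsuppSum] at this
    simpa only [map_zsmul] using this

end Pool.Agent.FF28
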