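import Pool.Agent.FF57.CDef
import Pool.Agent.FF24.Act

/-!
# FF28/EdgeS: near a point only the active facets count; edges are segments
-/

set_option autoImplicit false

open Set Metric
open scoped RealInnerProductSpace

namespace Pool.FF28

open Pool.FF24 Pool.FF56 Pool.FF57

variable {E : Type*} [NormedAddCommGroup E] [InnerProductSpace ℝ E] {P : HPoly E}

theorem near {m : E} (hm : m ∈ P.body) :
    ∃ ε : ℝ, 0 < ε ∧ ∀ q : E, ‖q‖ < ε → (∀ u ∈ P.act m, ⟪u, q⟫ ≤ 0) → m + q ∈ P.body := by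
  classical
  obtain ⟨ε, hε, h⟩ : ∃ ε : ℝ, 0 < ε ∧ ∀ u ∈ P.N, ⟪u, m⟫ < P.h u → ε ≤ P.h u - ⟪u, m⟫ := by
    induction P.N using Finset.induction_on with
    | empty => exact ⟨1, one_pos, fun u hu => absurd hu (Finset.notMem_empty u)⟩
    | insert a s has ih =>
      obtain ⟨ε, hε, h⟩ := ih
      by_cases ha : ⟪a, m⟫ < P.h a
      · refine ⟨min ε (P.h a - ⟪a, m⟫), lt_min hε (by linarith), fun u hu hlt => ?_⟩
        rcases Finset.mem_insert.1 hu with rfl | hu
        · exact min_le_right _ _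
        · exact (min_le_left _ _).trans (h u hu hlt)
      · refine ⟨ε, hε, fun u hu hlt => ?_⟩
        rcases Finset.mem_insert.1 hu with rfl | hu
        · exact absurd hlt ha
        · exact h u hu hlt
  refine ⟨ε, hε, fun q hq hact u hu => ?_⟩
  rw [inner_add_right]
  rcases (hm u hu).lt_or_eq with hlt | heq
  · have h1 := h u hu hlt
    have h2 : ⟪u, q⟫ ≤ ‖q‖ := by
      have := real_inner_le_norm u q
      rwa [P.unit u hu, one_mul] at this
    linarith
  · have := hact u ⟨hu, heq⟩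
    linarith

theorem orth3 [FiniteDimensional ℝ E] (h3 : Module.finrank ℝ E = 3) {x y w z : E}
    (hli : LinearIndependent ℝ ![x, y, w]) (h1 : ⟪x, z⟫ = 0) (h2 : ⟪y, z⟫ = 0) (h4 : ⟪w, z⟫ = 0) :
    z = 0 := by
  have h := hli.span_eq_top_of_card_eq_finrank (by rw [h3]; rfl)
  have hz : z ∈ Submodule.span ℝ (Set.range ![x, y, w]) := by
    rw [h]
    exact Submodule.mem_top
  have e : Set.range ![x, y, w] = {x, y, w} := by
    ext t
    simp only [Set.mem_range, Set.mem_insert_iff, Set.mem_singleton_iff]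
    constructor
    · rintro ⟨i, rfl⟩
      fin_cases i <;> simp
    · rintro (rfl | rfl | rfl)
      · exact ⟨0, rfl⟩
      · exact ⟨1, rfl⟩
      · exact ⟨2, rfl⟩
  rw [e, Submodule.mem_span_triple] at hz
  obtain ⟨α, β, γ, h⟩ := hz
  have h5 : ⟪z, z⟫ = 0 := by
    nth_rewrite 1 [← h]
    rw [inner_add_left, inner_add_left, inner_smul_left, inner_smul_left, inner_smul_left, h1, h2,
      h4]
    simp
  exact inner_self_eq_zero.1 h5

theorem li_orth {x y g : E} (h : LinearIndependent ℝ ![x, y]) (hg : g ≠ 0) (h1 : ⟪x, g⟫ = 0)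
    (h2 : ⟪y, g⟫ = 0) : LinearIndependent ℝ ![x, y, g] := by
  rw [Fintype.linearIndependent_iff]
  intro s hs
  rw [Fin.sum_univ_three] at hs
  have hs' : s 0 • x + s 1 • y + s 2 • g = 0 := hs
  have h3 : s 2 = 0 := by
    have h4 := congrArg (fun z => ⟪z, g⟫) hs'
    simp only [inner_add_left, inner_smul_left, h1, h2, inner_zero_left, conj_trivial, mul_zero,
      zero_add] at h4
    exact (mul_eq_zero.1 h4).resolve_right (fun h5 => hg (inner_self_eq_zero.1 h5))
  rw [h3, zero_smul, add_zero] at hs'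
  have h4 := LinearIndependent.pair_iff.1 h _ _ hs'
  intro i
  fin_cases i
  · exact h4.1
  · exact h4.2
  · exact h3

theorem exists_perp [FiniteDimensional ℝ E] (h3 : Module.finrank ℝ E = 3) (u v : E) :
    ∃ h : E, ‖h‖ = 1 ∧ ⟪u, h⟫ = 0 ∧ ⟪v, h⟫ = 0 := by
  classical
  have h1 : Module.finrank ℝ (Submodule.span ℝ (({u, v} : Finset E) : Set E)) ≤ 2 :=
    (finrank_span_finset_le_card _).trans Finset.card_le_two
  have h2 := Submodule.finrank_add_finrank_orthogonal (Submodule.span ℝ (({u, v} : Finset E) : Set E))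
  obtain ⟨z, hz, hz0⟩ : ∃ z ∈ (Submodule.span ℝ (({u, v} : Finset E) : Set E))ᗮ, z ≠ 0 := by
    refine Submodule.exists_mem_ne_zero_of_ne_bot fun h => ?_
    rw [h, finrank_bot] at h2
    omega
  have hn : ‖z‖ ≠ 0 := norm_ne_zero_iff.2 hz0
  refine ⟨(‖z‖)⁻¹ • z, ?_, ?_, ?_⟩
  · rw [norm_smul, norm_inv, norm_norm, inv_mul_cancel₀ hn]
  · rw [inner_smul_right, (Submodule.mem_orthogonal _ z).1 hz u (Submodule.subset_span (by simp)),
      mul_zero]
  · rw [inner_smul_right, (Submodule.mem_orthogonal _ z).1 hz v (Submodule.subset_span (by simp)),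
      mul_zero]

/-- the minimal face of a ridge point is a segment -/
theorem mf_line [FiniteDimensional ℝ E] (hd : Module.finrank ℝ E = 3) {y u v g : E}
    (hy : y ∈ P.body) (huv : u ≠ v) (h : P.act y = {u, v}) (hg : ‖g‖ = 1) (h1 : ⟪u, g⟫ = 0)
    (h2 : ⟪v, g⟫ = 0) {z : E} : z ∈ P.mf y ↔ z ∈ P.body ∧ ∃ t : ℝ, z = y + t • g := by
  have hu : u ∈ P.act y := by rw [h]; simp
  have hv : v ∈ P.act y := by rw [h]; simp
  have hg0 : g ≠ 0 := by
    rintro rfl
    simp at hg
  rw [mf_eq hy]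
  constructor
  · rintro ⟨hz, hsub⟩
    refine ⟨hz, ⟪g, z - y⟫, ?_⟩
    have hzu := (hsub hu).2
    have hzv := (hsub hv).2
    have h4 : z - y - ⟪g, z - y⟫ • g = 0 := by
      refine orth3 hd (li_orth (act_pair hy hu hv huv) hg0 h1 h2) ?_ ?_ ?_
      · rw [inner_sub_right, inner_smul_right, h1, inner_sub_right, hzu, hu.2]
        simp
      · rw [inner_sub_right, inner_smul_right, h2, inner_sub_right, hzv, hv.2]
        simp
      · rw [inner_sub_right, inner_smul_right, real_inner_self_eq_norm_sq, hg]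
        simp
    have h5 := sub_eq_zero.1 h4
    rw [← h5]
    abel
  · rintro ⟨hz, t, rfl⟩
    refine ⟨hz, ?_⟩
    rw [h]
    rintro w (rfl | hw)
    · exact ⟨hu.1, by rw [inner_add_right, inner_smul_right, h1, hu.2, mul_zero, add_zero]⟩
    · rw [Set.mem_singleton_iff] at hw
      subst hw
      exact ⟨hv.1, by rw [inner_add_right, inner_smul_right, h2, hv.2, mul_zero, add_zero]⟩

theorem seg [FiniteDimensional ℝ E] (hd : Module.finrank ℝ E = 3) {y u v : E} (hy : y ∈ P.body)
    (huv : u ≠ v) (h : P.act y = {u, v}) : ∃ c : E, ∀ z ∈ P.mf y, c - z ∈ P.mf y := by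
  obtain ⟨g, hg, h1, h2⟩ := exists_perp hd u v
  set S : Set ℝ := {t | y + t • g ∈ P.body} with hS
  have hne : S.Nonempty := ⟨0, by rw [hS, Set.mem_ofPred_eq, zero_smul, add_zero]; exact hy⟩
  have hcl : IsClosed S := by
    have e : S = ⋂ w ∈ P.N, {t : ℝ | ⟪w, y + t • g⟫ ≤ P.h w} := by
      ext t
      simp only [hS, Set.mem_ofPred_eq, Set.mem_iInter]
      rfl
    rw [e]
    refine isClosed_biInter fun w _ => isClosed_le ?_ continuous_const
    exact continuous_const.inner (continuous_const.add (continuous_id.smul continuous_const))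
  have hbd : Bornology.IsBounded S := by
    obtain ⟨r, hr⟩ := P.bdd
    rw [isBounded_iff_forall_norm_le]
    refine ⟨r + ‖y‖, fun t ht => ?_⟩
    have h3 : ‖y + t • g‖ ≤ r := hr _ ht
    have h4 : t • g = (y + t • g) - y := by abel
    have h5 : ‖t‖ = ‖t • g‖ := by rw [norm_smul, hg, mul_one]
    rw [h5, h4]
    exact (norm_sub_le _ _).trans (by linarith)
  have hcp : IsCompact S := Metric.isCompact_of_isClosed_isBounded hcl hbd
  have ha := hcp.sInf_mem hne
  have hb := hcp.sSup_mem hne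
  set α := sInf S with hα
  set β := sSup S with hβ
  have hmem : ∀ t, α ≤ t → t ≤ β → t ∈ S := by
    intro t hta htb w hw
    have e1 : ⟪w, y + α • g⟫ ≤ P.h w := ha w hw
    have e2 : ⟪w, y + β • g⟫ ≤ P.h w := hb w hw
    rw [inner_add_right, inner_smul_right] at e1 e2 ⊢
    rcases le_total 0 ⟪w, g⟫ with h3 | h3
    · have := mul_le_mul_of_nonneg_right htb h3
      linarith
    · have := mul_le_mul_of_nonpos_right hta h3
      linarith
  refine ⟨y + y + (α + β) • g, fun z hz => ?_⟩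
  rw [mf_line hd hy huv h hg h1 h2] at hz ⊢
  obtain ⟨hzb, t, rfl⟩ := hz
  have e : y + y + (α + β) • g - (y + t • g) = y + (α + β - t) • g := by module
  rw [e]
  have ht : t ∈ S := hzb
  have h3 : α ≤ t := csInf_le hcp.bddBelow ht
  have h4 : t ≤ β := le_csSup hcp.bddAbove ht
  exact ⟨hmem _ (by linarith) (by linarith), _, rfl⟩

end Pool.FF28
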