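import Pool.Agent.FF56.Auto
import Pool.Agent.FF24.ActTwo

/-!
# FF28/GlueAt: every crossing of a facet-to-facet tiling is a crossing of some gluing data

No coherence is used: `g` depends on the crossing. `next_flag`: the next tile around a ridge.
-/

set_option autoImplicit false

open Set Metric
open scoped RealInnerProductSpace

namespace Pool.FF28

open Pool.FF24 Pool.FF79 Pool.FF56

variable {E : Type*} [NormedAddCommGroup E] [InnerProductSpace ℝ E]

theorem sgn_nb_in {P : HPoly E} {g : Glue P} {v : E} {τ : ℝ × E} (h : v ∈ g.I) :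
    (g.nb v τ).1 = -τ.1 := by
  unfold Glue.nb
  rw [if_pos h]

theorem sgn_nb_notin {P : HPoly E} {g : Glue P} {v : E} {τ : ℝ × E} (h : v ∉ g.I) :
    (g.nb v τ).1 = τ.1 := by
  unfold Glue.nb
  rw [if_neg h]

theorem csym_of_tra {P : HPoly E} {u : E} (h : Tra P u) (h' : Csym P (-u)) : Csym P u := by
  obtain ⟨-, c, hc⟩ := h
  obtain ⟨c', hc'⟩ := h'
  refine ⟨c' - c - c, fun z hz => ?_⟩
  have h1 := hc' _ ((hc z).1 hz)
  rw [hc]
  have e : c' - c - c - z + c = c' - (z + c) := by abel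
  rw [e]
  exact h1

theorem tra_neg {P : HPoly E} {u : E} (hu : u ∈ P.N) (h : Tra P u) : Tra P (-u) := by
  obtain ⟨-, c, hc⟩ := h
  refine ⟨by rwa [neg_neg], -c, fun z => ?_⟩
  rw [neg_neg, hc]
  have e : z + -c + c = z := by abel
  rw [e]

theorem csym_or_tra {P : HPoly E} {T : Set (ℝ × E)} (hT : FF56.IsFF P T) {u : E} (hu : u ∈ P.N) :
    Csym P u ∨ Tra P u := by
  obtain ⟨τ, hτ, -⟩ := hT.cover 0
  obtain ⟨σ, -, -, -, h | h⟩ := hT.cases hτ hu
  · exact Or.inl h.2
  · exact Or.inr h.2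

theorem sq_one {s : ℝ} (h : s = 1 ∨ s = -1) : s * s = 1 := by
  rcases h with e | e <;> rw [e] <;> norm_num

theorem glue_at {P : HPoly E} {T : Set (ℝ × E)} (hT : FF56.IsFF P T) {τ σ : ℝ × E} (hτ : τ ∈ T)
    (hσ : σ ∈ T) (hne : σ ≠ τ) {v v' : E} (hv : v ∈ P.N) (hv' : v' ∈ P.N)
    (hF : X σ '' P.fc v' = X τ '' P.fc v) : ∃ g : Glue P, g.nb v τ = σ ∧ g.star v = v' := by
  classical
  have hn := facet_normal P (hT.sign τ hτ) (hT.sign σ hσ) hv hv' (hT.disj τ hτ σ hσ hne.symm) hF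
  have hsq : τ.1 * τ.1 = 1 := sq_one (hT.sign τ hτ)
  have hcases : σ.1 = -τ.1 ∨ σ.1 = τ.1 := by
    rcases hT.sign τ hτ with h | h <;> rcases hT.sign σ hσ with h' | h' <;> rw [h, h'] <;> norm_num
  -- the vectors of the other facets
  have hI : ∀ u, ∃ c : E, (u ∈ P.N → Csym P u → ∀ z ∈ P.fc u, c - z ∈ P.fc u) := by
    intro u
    by_cases h : Csym P u
    · obtain ⟨c, hc⟩ := h
      exact ⟨c, fun _ _ => hc⟩
    · exact ⟨0, fun _ h' => absurd h' h⟩
  have hTr : ∀ u, ∃ c : E, (Tra P u → ∀ z ∈ P.fc u, z + c ∈ P.fc (-u)) := by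
    intro u
    by_cases h : Tra P u
    · obtain ⟨-, c, hc⟩ := h
      exact ⟨c, fun _ z hz => (hc z).1 hz⟩
    · exact ⟨0, fun h' => absurd h' h⟩
  choose cI hcI using hI
  choose cT hcT using hTr
  rcases hcases with hs | hs
  · -- point reflection
    have hvu : v' = v := by
      rw [hs, neg_smul, neg_inj] at hn
      have := congrArg (fun w => τ.1 • w) hn
      simpa [smul_smul, hsq] using this
    rw [hvu] at hF
    have hc0 : ∀ z ∈ P.fc v, τ.1 • (σ.2 - τ.2) - z ∈ P.fc v := by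
      intro z hz
      have h1 : X τ z ∈ X σ '' P.fc v := by
        rw [hF]
        exact ⟨z, hz, rfl⟩
      obtain ⟨z', hz', h2⟩ := h1
      have h3 : τ.1 • (σ.2 - τ.2) - z = z' := by
        unfold X at h2
        rw [hs] at h2
        have h4 : τ.1 • z' = σ.2 - τ.2 - τ.1 • z := by
          have : -τ.1 • z' + σ.2 = τ.1 • z + τ.2 := h2
          rw [neg_smul] at this
          have h5 : τ.1 • z' = σ.2 - (τ.1 • z + τ.2) := by
            rw [← this]
            abel
          rw [h5]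
          abel
        have h5 := congrArg (fun w => τ.1 • w) h4
        simp only [smul_smul, hsq, one_smul, smul_sub] at h5
        rw [h5, smul_sub]
      rw [h3]
      exact hz'
    have hcs : Csym P v := ⟨_, hc0⟩
    refine ⟨⟨{u | Csym P u}, fun u => if u ∈ {u | Csym P u} then
      (if u = v then τ.1 • (σ.2 - τ.2) else cI u) else cT u, ?_, ?_, ?_, ?_⟩, ?_, ?_⟩
    · intro u hu huI z hz
      rw [if_pos huI]
      by_cases huv : u = v
      · rw [if_pos huv]
        subst huv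
        exact hc0 z hz
      · rw [if_neg huv]
        exact hcI u hu huI z hz
    · intro u hu huI
      exact ((csym_or_tra hT hu).resolve_left huI).1
    · intro u hu huI h
      exact huI (csym_of_tra ((csym_or_tra hT hu).resolve_left huI) h)
    · intro u hu huI z hz
      rw [if_neg huI]
      exact hcT u ((csym_or_tra hT hu).resolve_left huI) z hz
    · unfold Glue.nb
      have hm : v ∈ ({u | Csym P u} : Set E) := hcs
      simp only [if_pos hm, if_true]
      rw [smul_smul, hsq, one_smul]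
      have e : τ.2 + (σ.2 - τ.2) = σ.2 := by abel
      rw [e, ← hs]
    · unfold Glue.star
      have hm : v ∈ ({u | Csym P u} : Set E) := hcs
      simp only [if_pos hm]
      exact hvu.symm
  · -- translation
    have hvu : v' = -v := by
      rw [hs, ← smul_neg] at hn
      have := congrArg (fun w => τ.1 • w) hn
      simpa [smul_smul, hsq] using this
    rw [hvu] at hF hv'
    have key : ∀ z, X τ z = X σ (z + τ.1 • (τ.2 - σ.2)) := by
      intro z
      unfold X
      rw [hs, smul_add, smul_smul, hsq, one_smul]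
      abel
    have hinj : ∀ ρ : ℝ × E, (ρ.1 = 1 ∨ ρ.1 = -1) → ∀ (A : Set E) (w : E),
        X ρ w ∈ X ρ '' A ↔ w ∈ A := by
      intro ρ hρ A w
      constructor
      · rintro ⟨w', hw', h⟩
        have := congrArg (crd ρ) h
        rw [crd_X hρ, crd_X hρ] at this
        rw [← this]
        exact hw'
      · intro h
        exact ⟨w, h, rfl⟩
    have hc0 : ∀ z, z ∈ P.fc v ↔ z + τ.1 • (τ.2 - σ.2) ∈ P.fc (-v) := by
      intro z
      rw [← hinj τ (hT.sign τ hτ) (P.fc v) z, ← hF, key, hinj σ (hT.sign σ hσ)]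
    have htr : Tra P v := ⟨hv', _, hc0⟩
    have htr' : Tra P (-v) := tra_neg hv htr
    have hdec : ∀ u ∈ P.N, u ∉ ({u | Csym P u ∧ u ≠ v ∧ u ≠ -v} : Set E) → Tra P u := by
      intro u hu huI
      by_cases h1 : u = v
      · rw [h1]; exact htr
      by_cases h2 : u = -v
      · rw [h2]; exact htr'
      exact (csym_or_tra hT hu).resolve_left fun h => huI ⟨h, h1, h2⟩
    refine ⟨⟨{u | Csym P u ∧ u ≠ v ∧ u ≠ -v}, fun u =>
      if u ∈ ({u | Csym P u ∧ u ≠ v ∧ u ≠ -v} : Set E) then cI u else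
      (if u = v then τ.1 • (τ.2 - σ.2) else cT u), ?_, ?_, ?_, ?_⟩, ?_, ?_⟩
    · intro u hu huI z hz
      rw [if_pos huI]
      exact hcI u hu huI.1 z hz
    · intro u hu huI
      exact (hdec u hu huI).1
    · intro u hu huI h
      refine huI ⟨csym_of_tra (hdec u hu huI) h.1, ?_, ?_⟩
      · intro e
        exact h.2.2 (by rw [e])
      · intro e
        exact h.2.1 (by rw [e, neg_neg])
    · intro u hu huI z hz
      rw [if_neg huI]
      by_cases huv : u = v
      · rw [if_pos huv]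
        subst huv
        exact (hc0 z).1 hz
      · rw [if_neg huv]
        exact hcT u (hdec u hu huI) z hz
    · unfold Glue.nb
      have hm : v ∉ ({u | Csym P u ∧ u ≠ v ∧ u ≠ -v} : Set E) := fun h => h.2.1 rfl
      simp only [if_neg hm, if_true]
      rw [smul_smul, hsq, one_smul]
      have e : τ.2 - (τ.2 - σ.2) = σ.2 := by abel
      rw [e, ← hs]
    · unfold Glue.star
      have hm : v ∉ ({u | Csym P u ∧ u ≠ v ∧ u ≠ -v} : Set E) := fun h => h.2.1 rfl
      simp only [if_neg hm]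
      exact hvu.symm

/-- THE NEXT TILE AROUND A RIDGE behind the facet `v`; real normals `τ.1 • u`, `τ.1 • v` -/
theorem next_flag {P : HPoly E} {T : Set (ℝ × E)} (hT : FF56.IsFF P T) {τ σ : ℝ × E} (hτ : τ ∈ T)
    (hσ : σ ∈ T) (hne : σ ≠ τ) {p u v v' : E} (hp : crd τ p ∈ P.body) (huv : u ≠ v)
    (hact : P.act (crd τ p) = {u, v}) (hv' : v' ∈ P.N)
    (hF : X σ '' P.fc v' = X τ '' P.fc v) :
    crd σ p ∈ P.body ∧ σ.1 • v' = -(τ.1 • v) ∧
      ((v' = v ∧ σ.1 = -τ.1) ∨ (v' = -v ∧ σ.1 = τ.1)) ∧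
      ∃ (w : E) (a b : ℝ), P.act (crd σ p) = {v', w} ∧ v' ≠ w ∧ 0 < a ∧
        σ.1 • w = a • (τ.1 • u) + b • (τ.1 • v) := by
  have hvm : v ∈ P.act (crd τ p) := by
    rw [hact]
    exact Set.mem_insert_of_mem _ (Set.mem_singleton _)
  have hv : v ∈ P.N := hvm.1
  obtain ⟨g, hnb, hst⟩ := glue_at hT hτ hσ hne hv hv' hF
  have hc : crd σ p = g.j v (crd τ p) := by
    rw [← hnb]
    exact crd_nb g (hT.sign τ hτ) v p
  have hn := facet_normal P (hT.sign τ hτ) (hT.sign σ hσ) hv hv' (hT.disj τ hτ σ hσ hne.symm) hF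
  obtain ⟨w, a, b, h1, h2, ha, h3⟩ := act_two g hp huv hact
  rw [← hc, hst] at h1
  rw [hst] at h2
  refine ⟨?_, hn, ?_, w, a, b, h1, h2, ha, ?_⟩
  · rw [hc]
    exact (j_mem g hv ⟨hp, hvm.2⟩).1
  · rcases h3 with ⟨hI, -⟩ | ⟨hI, -⟩
    · left
      refine ⟨by rw [← hst, Glue.star, if_pos hI], ?_⟩
      rw [← hnb, sgn_nb_in hI]
    · right
      refine ⟨by rw [← hst, Glue.star, if_neg hI], ?_⟩
      rw [← hnb, sgn_nb_notin hI]
  · rcases h3 with ⟨hI, hw⟩ | ⟨hI, hw⟩
    · rw [← hnb, sgn_nb_in hI, hw]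
      module
    · rw [← hnb, sgn_nb_notin hI, hw]
      module

end Pool.FF28
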