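import Pool.Agent.FF57.CDef
import Pool.Agent.FF28.GlueAt

/-!
# FF28/NotVar: no facet varies: the tiling is coherent
-/

set_option autoImplicit false

open Set Metric
open scoped RealInnerProductSpace

namespace Pool.FF28

open Pool.FF24 Pool.FF79 Pool.FF56 Pool.FF57

variable {E : Type*} [NormedAddCommGroup E] [InnerProductSpace ℝ E]

/-- the crossing in detail -/
theorem crs_cases {P : HPoly E} {T : Set (ℝ × E)} (hT : FF56.IsFF P T) {τ σ : ℝ × E} {u : E}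
    (h : Crs P T τ u σ) : (σ.1 = -τ.1 ∧ Csym P u) ∨ (σ.1 = τ.1 ∧ Tra P u) := by
  obtain ⟨hτ, hσ, hne, hu, v, hv, hF⟩ := h
  obtain ⟨g, hnb, -⟩ := glue_at hT hτ hσ hne hu hv hF
  by_cases hI : u ∈ g.I
  · left
    refine ⟨by rw [← hnb, sgn_nb_in hI], g.c u, fun z hz => g.inv u hu hI z hz⟩
  · right
    have hn := facet_normal P (hT.sign τ hτ) (hT.sign σ hσ) hu hv (hT.disj τ hτ σ hσ hne.symm) hF
    have hs : σ.1 = τ.1 := by rw [← hnb, sgn_nb_notin hI]
    refine ⟨hs, g.negN u hu hI, ?_⟩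
    -- the translation is onto
    have hsq : τ.1 * τ.1 = 1 := sq_one (hT.sign τ hτ)
    have hvu : v = -u := by
      rw [hs, ← smul_neg] at hn
      have := congrArg (fun w => τ.1 • w) hn
      simpa [smul_smul, hsq] using this
    rw [hvu] at hF
    have key : ∀ z, X τ z = X σ (z + τ.1 • (τ.2 - σ.2)) := by
      intro z
      unfold X
      rw [hs, smul_add, smul_smul, hsq, one_smul]
      abel
    have hinj : ∀ ρ : ℝ × E, (ρ.1 = 1 ∨ ρ.1 = -1) → ∀ (A : Set E) (w : E),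
        X ρ w ∈ X ρ '' A ↔ w ∈ A := by
      intro ρ hρ A w
      constructor
      · rintro ⟨w', hw', h⟩
        have := congrArg (crd ρ) h
        rw [crd_X hρ, crd_X hρ] at this
        rw [← this]
        exact hw'
      · intro h
        exact ⟨w, h, rfl⟩
    refine ⟨τ.1 • (τ.2 - σ.2), fun z => ?_⟩
    rw [← hinj τ (hT.sign τ hτ) (P.fc u) z, ← hF, key, hinj σ (hT.sign σ hσ)]

theorem csym_neg_of_tra {P : HPoly E} {u : E} (hu : u ∈ P.N) (h : Tra P u) (h' : Csym P u) :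
    Csym P (-u) := by
  refine csym_of_tra (tra_neg hu h) ?_
  rwa [neg_neg]

theorem varies_data {P : HPoly E} {T : Set (ℝ × E)} (hT : FF56.IsFF P T) {a : E}
    (hv : Varies P T a) : a ∈ P.N ∧ Tra P a ∧ Csym P a := by
  obtain ⟨⟨τ, σ, u, hu, h1, hs⟩, τ', σ', u', hu', h1', hs'⟩ := hv
  have htra : Tra P u := by
    rcases crs_cases hT h1 with ⟨e, -⟩ | ⟨-, h⟩
    · exfalso
      rw [hs] at e
      rcases hT.sign τ h1.1 with h | h <;> rw [h] at e <;> norm_num at e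
    · exact h
  have hcs : Csym P u' := by
    rcases crs_cases hT h1' with ⟨-, h⟩ | ⟨e, -⟩
    · exact h
    · exfalso
      rw [hs'] at e
      rcases hT.sign τ' h1'.1 with h | h <;> rw [h] at e <;> norm_num at e
  have huN : u ∈ P.N := h1.2.2.2.1
  have haN : a ∈ P.N ∧ Tra P a := by
    rcases hu with rfl | rfl
    · exact ⟨huN, htra⟩
    · have h2 := htra.1
      rw [neg_neg] at h2
      have h3 := tra_neg huN htra
      rw [neg_neg] at h3
      exact ⟨h2, h3⟩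
  refine ⟨haN.1, haN.2, ?_⟩
  rcases hu' with rfl | rfl
  · exact hcs
  · exact csym_of_tra haN.2 hcs

theorem coh_of_not_varies {P : HPoly E} {T : Set (ℝ × E)} (hT : FF56.IsFF P T)
    (h : ∀ a, ¬ Varies P T a) : ∃ I : Set E, IsTiling P I T := by
  refine ⟨{u | ∃ τ σ w, (w = u ∨ w = -u) ∧ Crs P T τ w σ ∧ σ.1 = -τ.1}, hT.sign, hT.cover,
    hT.disj, ?_⟩
  intro τ hτ u hu
  obtain ⟨σ, hσ, hne, v, hv, hF⟩ := hT.facet τ hτ u hu
  have hc : Crs P T τ u σ := ⟨hτ, hσ, hne, hu, v, hv, hF⟩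
  refine ⟨σ, hσ, hne, ?_, v, hv, hF⟩
  rcases crs_cases hT hc with ⟨hs, -⟩ | ⟨hs, -⟩
  · exact Or.inl ⟨⟨τ, σ, u, Or.inl rfl, hc, hs⟩, hs⟩
  · refine Or.inr ⟨?_, hs⟩
    rintro ⟨τ', σ', w, hw, hc', hs'⟩
    exact h u ⟨⟨τ, σ, u, Or.inl rfl, hc, hs⟩, τ', σ', w, hw, hc', hs'⟩

end Pool.FF28
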